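import Pool.Agent.Helper93.KS.St2

/-!
# Project KS part 2, module EXL: the exceptional set in `(N, 2 N]`
-/

set_option autoImplicit false

noncomputable section

namespace Pool.Agent.Helper72.KS

open Finset Filter Topology Pool.Agent.Helper93.KS
open Pool.Agent.Helper15.AB (SP StML)
open Pool.Agent.Helper9.TW (gm)
open Pool.Agent.Helper93.KP (gk vk tk rn gn TK qk StRTS)

/-- The boxes with density one. -/
private def Ib (u j0 : ℕ) : Finset ℕ :=
  Ico j0 (19 * u) ∪ (Ico (21 * u) (29 * u) ∪ Ico (41 * u) (59 * u))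

private theorem gn_nonneg (n p : ℕ) : 0 ≤ gn n p := by
  unfold gn
  positivity

/-- **EXL.** -/
theorem hEXL (hD : StDYB) (h1 : StEX1) (hA : StAB) : StEXL := by
  classical
  intro u j0 η hj0 hju hη
  have hu3 : 3 ≤ u := by omega
  have hu0 : (0 : ℝ) < u := by exact_mod_cast (show 0 < u by omega)
  have hω0 : (0 : ℝ) < 1 / (100 * u) := by positivity
  have hIb : ∀ i ∈ Ib u j0, 50 ≤ i := by
    intro i hi
    unfold Ib at hi
    simp only [mem_union, mem_Ico] at hi
    omega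
  have hex : ∀ i : ℕ, ∃ A : ℕ, i ∈ Ib u j0 → ∀ᶠ N : ℕ in atTop, (((Ioc N (2 * N)).filter
      (fun n => η / 2 ≤ |∑ p ∈ bq N (1 / (100 * u)) i, sx n p / p|)).card : ℝ) ≤
      Real.log N ^ A := by
    intro i
    by_cases hi : i ∈ Ib u j0
    · obtain ⟨A, hA'⟩ := hD u i (η / 2) (by omega) (by have := hIb i hi; omega) (by linarith)
      exact ⟨A, fun _ => hA'⟩
    · exact ⟨0, fun h => absurd h hi⟩
  choose Af hAf using hex
  obtain ⟨A, hAdef⟩ : ∃ A, A = (Ib u j0).sup Af := ⟨_, rfl⟩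
  have hAle : ∀ i ∈ Ib u j0, Af i ≤ A := by
    intro i hi
    rw [hAdef]
    exact Finset.le_sup hi
  refine ⟨A + 1, ?_⟩
  have hlog : ∀ᶠ N : ℕ in atTop, ((Ib u j0).card : ℝ) + 1 ≤ Real.log N :=
    (Real.tendsto_log_atTop.comp tendsto_natCast_atTop_atTop).eventually_ge_atTop _
  have hone : ∀ᶠ N : ℕ in atTop, ∀ i ∈ Ib u j0, (((Ioc N (2 * N)).filter
      (fun n => η / 2 ≤ |∑ p ∈ bq N (1 / (100 * u)) i, sx n p / p|)).card : ℝ) ≤
      Real.log N ^ A := by
    rw [Filter.eventually_all_finset]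
    intro i hi
    filter_upwards [hAf i hi, hlog] with N g1 g2
    refine g1.trans (pow_le_pow_right₀ ?_ (hAle i hi))
    have : (0 : ℝ) ≤ ((Ib u j0).card : ℝ) := by positivity
    linarith
  have hE1 : ∀ᶠ N : ℕ in atTop, ∀ i ∈ Ib u j0, ∀ n ∈ Ioc N (2 * N),
      Gb n (1 / (100 * u)) (gn n) i ≤ gm i + η / 2 +
        |∑ p ∈ bq N (1 / (100 * u)) i, sx n p / p| := by
    rw [Filter.eventually_all_finset]
    intro i hi
    filter_upwards [h1 u i (η / 2) (by omega) (hIb i hi) (by linarith)] with N hN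
    exact hN.2
  have hAB : ∀ᶠ n : ℕ in atTop, ∀ i ∈ Ico (19 * u) (78 * u),
      Gb n (1 / (100 * u)) (gn n) i ≤ 2 * gm i + η := by
    rw [Filter.eventually_all_finset]
    intro i hi
    have := mem_Ico.1 hi
    exact hA _ η i hω0 (by omega) hη
  obtain ⟨n₀, hn₀⟩ := eventually_atTop.1 hAB
  filter_upwards [hone, hE1, eventually_ge_atTop n₀, hlog] with N g1 g2 g3 g4
  have hsub : (Ioc N (2 * N)).filter (fun n => ¬ GD 1 19 78 kf1 u j0 η n) ⊆
      (Ib u j0).biUnion (fun i => (Ioc N (2 * N)).filter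
        (fun n => η / 2 ≤ |∑ p ∈ bq N (1 / (100 * u)) i, sx n p / p|)) := by
    intro n hn
    obtain ⟨hnI, hnG⟩ := mem_filter.1 hn
    rw [mem_biUnion]
    by_contra hcon
    apply hnG
    have hgood : ∀ i ∈ Ib u j0, Gb n (1 / (100 * u)) (gn n) i ≤ gm i + η := by
      intro i hi
      have h2 : ¬ (η / 2 ≤ |∑ p ∈ bq N (1 / (100 * u)) i, sx n p / p|) := by
        intro h3
        exact hcon ⟨i, hi, mem_filter.2 ⟨hnI, h3⟩⟩
      have h4 := g2 i hi n hnI
      push Not at h2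
      linarith
    have hnn : n₀ ≤ n := by
      have := mem_Ioc.1 hnI
      omega
    refine ⟨⟨gn_nonneg n, fun i hi => ?_⟩, fun j hj => ?_⟩
    · have h5 := hgood i (by unfold Ib; exact mem_union_left _ hi)
      rw [Nat.cast_one, one_mul]
      exact h5
    · have hj' := mem_Ico.1 hj
      unfold kf1
      split_ifs with hc
      · rw [Nat.cast_one, one_mul]
        apply hgood
        unfold Ib
        simp only [mem_union, mem_Ico]
        omega
      · exact_mod_cast hn₀ n hnn j hj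
  have hcard : (((Ioc N (2 * N)).filter (fun n => ¬ GD 1 19 78 kf1 u j0 η n)).card : ℝ) ≤
      ∑ i ∈ Ib u j0, (((Ioc N (2 * N)).filter
        (fun n => η / 2 ≤ |∑ p ∈ bq N (1 / (100 * u)) i, sx n p / p|)).card : ℝ) := by
    have h2 := (card_le_card hsub).trans card_biUnion_le
    exact_mod_cast h2
  refine hcard.trans ((sum_le_sum g1).trans ?_)
  rw [sum_const, nsmul_eq_mul, pow_succ, mul_comm]
  have h5 : (0 : ℝ) ≤ ((Ib u j0).card : ℝ) := by positivity
  exact mul_le_mul_of_nonneg_left (by linarith) (pow_nonneg (by linarith) A)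

end Pool.Agent.Helper72.KS
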