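import Pool.Agent.Helper93.KS.St

/-!
# Project KS, module T2 : the table for dimension two
-/

set_option autoImplicit false

namespace Pool.Agent.Helper72.KS

open Finset Filter Topology Pool.Agent.Helper93.KS
open Pool.Agent.Helper15.AB (ee Kl StDB StMT)
open Pool.Agent.Helper9.TW (gm Qs fm StMER StC9)
open Pool.Agent.Helper18.TR (StLevel)
open Pool.Agent.Helper93.KP (gk vk tk rn gn TK qk StC8P StVLP StRTS StWEI)

/-- one step, rounded up -/
private def st (i p l : ℕ) : ℕ := ((i + 1) * (i + 1) * p + (2 * i + 1) * l + (i * i - 1)) / (i * i)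

/-- one pass, `i` downwards -/
private def pp : ℕ → ℕ → List ℕ → List ℕ → List ℕ
  | i, p, x :: xs, l :: ls =>
      (bif Nat.ble x (st i p l) then x else st i p l) ::
        pp (i - 1) (bif Nat.ble x (st i p l) then x else st i p l) xs ls
  | _, _, [], _ => []
  | _, _, _ :: _, [] => []

/-- the pass for the upper bounds, `i = 319, ..., 16` -/
private def sU (v : List ℕ × List ℕ) : List ℕ :=
  pp 319 4 v.1 (v.2.drop 16 ++ List.replicate 32 1000000)

/-- one step -/
private def stp (v : List ℕ × List ℕ) : List ℕ × List ℕ :=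
  (sU v, pp 319 4 v.2 ((sU v).drop 16))

/-- iteration -/
private def itr : ℕ → List ℕ × List ℕ → List ℕ × List ℕ
  | 0, v => v
  | n + 1, v => itr n (stp v)

/-- the check -/
private def chk (v : List ℕ × List ℕ) : Bool :=
  Nat.ble (v.2.getD 175 0) 4000 && (Nat.ble (v.1.getD 175 0) 4000 &&
    (Nat.ble (v.1.getD 207 0) 74000 && (Nat.ble (v.1.getD 223 0) 334000 &&
    (Nat.ble (v.1.getD 231 0) 588000 && (Nat.ble (v.1.getD 239 0) 922000 &&
    (Nat.ble (v.1.getD 247 0) 1373000 && (Nat.ble (v.1.getD 255 0) 2003000 &&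
    Nat.ble (v.1.getD 260 0) 2533000)))))))

private theorem chk_true :
    chk (itr 24 (List.replicate 304 1000000000, List.replicate 288 1000000)) = true := by
  decide +kernel

private theorem HU_mono (S : ℕ) (s s' c c' : ℝ) (hs : s ≤ s') (hc : c ≤ c') (h : HU 2 S s c) :
    HU 2 S s' c' := by
  intro η hη
  obtain ⟨js, hjs⟩ := h η hη
  refine ⟨js, fun j0 h0 U L hA j N hj hN hsN => ?_⟩
  exact hA.um _ _ _ _ (hjs j0 h0 U L hA j N hj hN
    (le_trans (mul_le_mul_of_nonneg_right hs (by positivity)) hsN)) (by linarith)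

private theorem HL_mono (S : ℕ) (s s' c c' : ℝ) (hs : s ≤ s') (hc : c ≤ c') (h : HL 2 S s c) :
    HL 2 S s' c' := by
  intro η hη
  obtain ⟨js, hjs⟩ := h η hη
  refine ⟨js, fun j0 h0 U L hA j N hj hN hsN => ?_⟩
  exact hA.lm _ _ _ _ (hjs j0 h0 U L hA j N hj hN
    (le_trans (mul_le_mul_of_nonneg_right hs (by positivity)) hsN)) (by linarith)

/-- validity of a list of constants, starting at the index `i` -/
private def V (P : ℝ → ℝ → Prop) : ℕ → List ℕ → Prop
  | _, [] => True
  | i, x :: xs => P ((i : ℝ) / 16) ((x : ℝ) / 1000000) ∧ V P (i - 1) xs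

/-- validity of a list of step constants, starting at the index `i` -/
private def R (P : ℝ → ℝ → Prop) : ℕ → List ℕ → Prop
  | _, [] => True
  | i, l :: ls => (∀ c : ℝ, 0 ≤ c → P (((i : ℝ) + 1) / 16) c →
      P ((i : ℝ) / 16) ((((i : ℝ) + 1) / i) ^ 2 * c +
        ((((i : ℝ) + 1) / i) ^ 2 - 1) * ((l : ℝ) / 1000000))) ∧ R P (i - 1) ls

private theorem pp_len : ∀ (xs ls : List ℕ) (i p : ℕ), xs.length ≤ ls.length →
    (pp i p xs ls).length = xs.length
  | [], ls, i, p, _ => by cases ls <;> simp [pp]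
  | x :: xs, [], i, p, h => by simp at h
  | x :: xs, l :: ls, i, p, h => by
    simp only [pp, List.length_cons]
    rw [pp_len xs ls _ _ (by simpa using h)]

private theorem cond_ble (x y : ℕ) : (bif Nat.ble x y then x else y) = min x y := by
  by_cases h : x ≤ y
  · rw [min_eq_left h]; simp [Nat.ble_eq.mpr h]
  · rw [min_eq_right (by omega)]
    have : Nat.ble x y = false := by
      by_contra hc
      exact h (Nat.ble_eq.mp (by simpa using hc))
    simp [this]

private theorem st_bound (i p l : ℕ) (hi : 1 ≤ i) :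
    (((i : ℝ) + 1) / i) ^ 2 * ((p : ℝ) / 1000000) +
      ((((i : ℝ) + 1) / i) ^ 2 - 1) * ((l : ℝ) / 1000000) ≤ ((st i p l : ℕ) : ℝ) / 1000000 := by
  have hi' : (0 : ℝ) < i := by exact_mod_cast hi
  have hii : 0 < i * i := Nat.mul_pos (by omega) (by omega)
  have h : (i + 1) * (i + 1) * p + (2 * i + 1) * l ≤ st i p l * (i * i) := by
    unfold st
    generalize (i + 1) * (i + 1) * p + (2 * i + 1) * l = A
    generalize i * i = B at hii ⊢
    have h1 := Nat.div_add_mod (A + (B - 1)) B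
    have h2 := Nat.mod_lt (A + (B - 1)) hii
    have h3 : (A + (B - 1)) / B * B = B * ((A + (B - 1)) / B) := Nat.mul_comm _ _
    omega
  have h' : ((i : ℝ) + 1) * (i + 1) * p + (2 * i + 1) * l ≤ (st i p l : ℝ) * (i * i) := by
    exact_mod_cast h
  have e : (((i : ℝ) + 1) / i) ^ 2 * ((p : ℝ) / 1000000) +
      ((((i : ℝ) + 1) / i) ^ 2 - 1) * ((l : ℝ) / 1000000) =
      ((((i : ℝ) + 1) * (i + 1) * p + (2 * i + 1) * l) / (i * i)) / 1000000 := by
    field_simp
    ring
  rw [e]
  refine div_le_div_of_nonneg_right ?_ (by norm_num)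
  rw [div_le_iff₀ (by positivity)]
  exact h'

private theorem pp_valid (P : ℝ → ℝ → Prop)
    (hP : ∀ s s' c c', s ≤ s' → c ≤ c' → P s c → P s' c') : ∀ (xs ls : List ℕ) (i p : ℕ),
    V P i xs → R P i ls → P (((i : ℝ) + 1) / 16) ((p : ℝ) / 1000000) → xs.length ≤ i →
    V P i (pp i p xs ls)
  | [], ls, i, p, _, _, _, _ => by cases ls <;> simp [pp, V]
  | x :: xs, [], i, p, _, _, _, _ => by simp [pp, V]
  | x :: xs, l :: ls, i, p, hx, hl, hp, hlen => by
    simp only [pp, cond_ble]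
    obtain ⟨hx1, hx2⟩ := hx
    obtain ⟨hl1, hl2⟩ := hl
    simp only [List.length_cons] at hlen
    have hi : 1 ≤ i := by omega
    have hy := hP _ _ _ _ le_rfl (st_bound i p l hi) (hl1 _ (by positivity) hp)
    have hm : P ((i : ℝ) / 16) (((min x (st i p l) : ℕ) : ℝ) / 1000000) := by
      rcases min_choice x (st i p l) with h | h <;> rw [h]
      · exact hx1
      · exact hy
    refine ⟨hm, pp_valid P hP xs ls (i - 1) _ hx2 hl2 ?_ (by omega)⟩
    have e1 : ((i - 1 : ℕ) : ℝ) + 1 = (i : ℝ) := by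
      rw [Nat.cast_sub (by omega)]; push_cast; ring
    rw [e1]; exact hm

private theorem R_DU (hU : StDU) (S : ℕ) : ∀ (ls : List ℕ) (i : ℕ), ls.length + 47 ≤ i →
    V (HL 2 S) (i - 16) ls → R (HU 2 S) i ls
  | [], i, _, _ => by simp [R]
  | l :: ls, i, hlen, h => by
    simp only [List.length_cons] at hlen
    obtain ⟨h1, h2⟩ := h
    refine ⟨fun c hc hp => ?_, R_DU hU S ls (i - 1) (by omega) ?_⟩
    · have e1 : ((i - 16 : ℕ) : ℝ) = (i : ℝ) - 16 := by
        rw [Nat.cast_sub (by omega)]; norm_num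
      rw [e1] at h1
      have := hU 2 S 16 i c ((l : ℝ) / 1000000) le_rfl (by norm_num) (by omega) hc
        (by positivity) (by exact_mod_cast hp) (by exact_mod_cast h1)
      exact_mod_cast this
    · have : i - 1 - 16 = i - 16 - 1 := by omega
      rw [this]; exact h2

private theorem R_DL (hL : StDL) (S : ℕ) : ∀ (ls : List ℕ) (i : ℕ), ls.length + 31 ≤ i →
    V (HU 2 S) (i - 16) ls → R (HL 2 S) i ls
  | [], i, _, _ => by simp [R]
  | l :: ls, i, hlen, h => by
    simp only [List.length_cons] at hlen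
    obtain ⟨h1, h2⟩ := h
    refine ⟨fun c hc hp => ?_, R_DL hL S ls (i - 1) (by omega) ?_⟩
    · have e1 : ((i - 16 : ℕ) : ℝ) = (i : ℝ) - 16 := by
        rw [Nat.cast_sub (by omega)]; norm_num
      rw [e1] at h1
      have := hL 2 S 16 i c ((l : ℝ) / 1000000) le_rfl (by norm_num) (by omega) hc
        (by positivity) (by exact_mod_cast hp) (by exact_mod_cast h1)
      exact_mod_cast this
    · have : i - 1 - 16 = i - 16 - 1 := by omega
      rw [this]; exact h2

private theorem R_DK (hK : StDK) (S : ℕ) : ∀ n i : ℕ, n ≤ i →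
    R (HU 2 S) i (List.replicate n 1000000)
  | 0, i, _ => by simp [R]
  | n + 1, i, hi => by
    rw [List.replicate_succ]
    refine ⟨fun c hc hp => ?_, R_DK hK S n (i - 1) (by omega)⟩
    have := hK 2 S 16 i c le_rfl (by norm_num) (by omega) hc (by exact_mod_cast hp)
    have e : ((1000000 : ℕ) : ℝ) / 1000000 = 1 := by norm_num
    rw [e, mul_one]
    exact_mod_cast this

private theorem R_append (P : ℝ → ℝ → Prop) : ∀ (xs ys : List ℕ) (i : ℕ), R P i xs →
    R P (i - xs.length) ys → R P i (xs ++ ys)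
  | [], ys, i, _, h => by simpa using h
  | x :: xs, ys, i, h1, h2 => by
    refine ⟨h1.1, R_append P xs ys (i - 1) h1.2 ?_⟩
    have : i - 1 - xs.length = i - (x :: xs).length := by
      simp only [List.length_cons]; omega
    rw [this]; exact h2

private theorem V_drop (P : ℝ → ℝ → Prop) : ∀ (k : ℕ) (xs : List ℕ) (i : ℕ), V P i xs →
    V P (i - k) (xs.drop k)
  | 0, xs, i, h => by simpa using h
  | k + 1, [], i, _ => by simp [V]
  | k + 1, x :: xs, i, h => by
    have := V_drop P k xs (i - 1) h.2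
    simp only [List.drop_succ_cons]
    have e : i - (k + 1) = i - 1 - k := by omega
    rw [e]; exact this

private theorem V_get (P : ℝ → ℝ → Prop) : ∀ (k : ℕ) (xs : List ℕ) (i : ℕ), V P i xs →
    k < xs.length → P (((i - k : ℕ) : ℝ) / 16) (((xs.getD k 0 : ℕ) : ℝ) / 1000000)
  | k, [], i, _, hk => by simp at hk
  | 0, x :: xs, i, h, _ => by simpa using h.1
  | k + 1, x :: xs, i, h, hk => by
    have := V_get P k xs (i - 1) h.2 (by simpa using hk)
    have e : i - (k + 1) = i - 1 - k := by omega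
    rw [e]
    simpa using this

private theorem V_rep (P : ℝ → ℝ → Prop) (b i₀ : ℕ)
    (h : ∀ i : ℕ, i₀ ≤ i → i ≤ 319 → P ((i : ℝ) / 16) ((b : ℝ) / 1000000)) :
    ∀ n i : ℕ, n + i₀ ≤ i + 1 → i ≤ 319 → V P i (List.replicate n b)
  | 0, i, _, _ => by simp [V]
  | n + 1, i, hi, hi' => by
    rw [List.replicate_succ]
    exact ⟨h i (by omega) hi', V_rep P b i₀ h n (i - 1) (by omega) (by omega)⟩

/-- validity of the state -/
private def Vd (S : ℕ) (v : List ℕ × List ℕ) : Prop :=
  v.1.length = 304 ∧ v.2.length = 288 ∧ V (HU 2 S) 319 v.1 ∧ V (HL 2 S) 319 v.2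

private theorem stp_valid (hK : StDK) (hU : StDU) (hL : StDL) (S : ℕ)
    (u20 : HU 2 S 20 (4 / 1000000)) (l20 : HL 2 S 20 (4 / 1000000))
    (v : List ℕ × List ℕ) (h : Vd S v) : Vd S (stp v) := by
  obtain ⟨k1, k2, k3, k4⟩ := h
  have hlen : (v.2.drop 16).length = 272 := by rw [List.length_drop, k2]
  have hlen2 : (v.2.drop 16 ++ List.replicate 32 1000000).length = 304 := by
    rw [List.length_append, hlen, List.length_replicate]
  have e : (((319 : ℕ) : ℝ) + 1) / 16 = 20 := by norm_num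
  have l1 : (sU v).length = 304 := by
    unfold sU
    rw [pp_len _ _ _ _ (by rw [k1, hlen2]), k1]
  have v1 : V (HU 2 S) 319 (sU v) := by
    unfold sU
    refine pp_valid _ (HU_mono S) _ _ _ _ k3 (R_append _ _ _ _
      (R_DU hU S _ _ (by rw [hlen]) (V_drop _ 16 v.2 319 k4))
      (by rw [hlen]; exact R_DK hK S 32 _ (by norm_num))) ?_ (by rw [k1]; norm_num)
    rw [e]; exact_mod_cast u20
  have l2 : ((sU v).drop 16).length = 288 := by rw [List.length_drop, l1]
  refine ⟨l1, ?_, v1, ?_⟩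
  · show (pp 319 4 v.2 ((sU v).drop 16)).length = 288
    rw [pp_len _ _ _ _ (by rw [k2, l2]), k2]
  · show V (HL 2 S) 319 (pp 319 4 v.2 ((sU v).drop 16))
    refine pp_valid _ (HL_mono S) _ _ _ _ k4
      (R_DL hL S _ _ (by rw [l2]) (V_drop _ 16 _ 319 v1)) ?_ (by rw [k2]; norm_num)
    rw [e]; exact_mod_cast l20

private theorem itr_valid (hK : StDK) (hU : StDU) (hL : StDL) (S : ℕ)
    (u20 : HU 2 S 20 (4 / 1000000)) (l20 : HL 2 S 20 (4 / 1000000)) :
    ∀ (n : ℕ) (v : List ℕ × List ℕ), Vd S v → Vd S (itr n v)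
  | 0, v, h => h
  | n + 1, v, h => itr_valid hK hU hL S u20 l20 n (stp v)
      (stp_valid hK hU hL S u20 l20 v h)

private theorem exp_bound (x : ℝ) (hx : 20 ≤ x) : 1750 * Real.exp (-x) ≤ 4 / 1000000 := by
  have h1 : Real.exp (-x) ≤ Real.exp (-20) := Real.exp_le_exp.mpr (by linarith)
  have h2 : (480000000 : ℝ) ≤ Real.exp 20 := by
    have e : Real.exp 20 = Real.exp 1 ^ 20 := by rw [← Real.exp_nat_mul]; norm_num
    rw [e]
    calc (480000000 : ℝ) ≤ 2.7182818283 ^ 20 := by norm_num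
      _ ≤ _ := by
        gcongr
        exact Real.exp_one_gt_d9.le
  have h3 : Real.exp (-20) ≤ 1 / 480000000 := by
    rw [Real.exp_neg, inv_eq_one_div]
    exact one_div_le_one_div_of_le (by norm_num) h2
  calc 1750 * Real.exp (-x) ≤ 1750 * (1 / 480000000) := by linarith
    _ ≤ _ := by norm_num

private theorem hU20 (hI : StDI) (S : ℕ) : HU 2 S 20 (4 / 1000000) := by
  intro η hη
  obtain ⟨js, hjs⟩ := hI 2 S le_rfl
  refine ⟨max js 1, fun j0 h0 U L hA j N hj hN hsN => ?_⟩
  have h2' : 1 ≤ j0 := le_trans (le_max_right _ _) h0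
  have hj0 : (0 : ℝ) < j := by
    have : 0 < j := by omega
    exact_mod_cast this
  have hN20 : 20 * j ≤ N := by exact_mod_cast hsN
  refine hA.um _ _ _ _ ((hjs j0 (le_trans (le_max_left _ _) h0) U L hA j N hj hN).2
    (by omega)) ?_
  have := exp_bound ((N : ℝ) / j) (by rw [le_div_iff₀ hj0]; exact hsN)
  linarith

private theorem hL20 (hI : StDI) (S : ℕ) : HL 2 S 20 (4 / 1000000) := by
  intro η hη
  obtain ⟨js, hjs⟩ := hI 2 S le_rfl
  refine ⟨max js 1, fun j0 h0 U L hA j N hj hN hsN => ?_⟩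
  have h2' : 1 ≤ j0 := le_trans (le_max_right _ _) h0
  have hj0 : (0 : ℝ) < j := by
    have : 0 < j := by omega
    exact_mod_cast this
  refine hA.lm _ _ _ _ (hjs j0 (le_trans (le_max_left _ _) h0) U L hA j N hj hN).1 ?_
  have := exp_bound ((N : ℝ) / j) (by rw [le_div_iff₀ hj0]; exact hsN)
  linarith

private theorem hU_start (hK : StDK) (S : ℕ) (u20 : HU 2 S 20 (4 / 1000000)) : ∀ n : ℕ, n < 320 →
    HU 2 S (((320 - n : ℕ) : ℝ) / 16)
      ((320 / ((320 - n : ℕ) : ℝ)) ^ 2 * (1 + 4 / 1000000) - 1)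
  | 0, _ => by
    refine HU_mono S _ _ _ _ (by norm_num) (by norm_num) u20
  | n + 1, hn => by
    have ih := hU_start hK S u20 n (by omega)
    obtain ⟨i, hi⟩ : ∃ i, 320 - (n + 1) = i := ⟨_, rfl⟩
    have hi1 : 1 ≤ i := by omega
    have e : 320 - n = i + 1 := by omega
    rw [e] at ih
    rw [hi]
    have hi' : (0 : ℝ) < i := by exact_mod_cast hi1
    have hi'' : (i : ℝ) + 1 ≤ 320 := by
      have : i + 1 ≤ 320 := by omega
      exact_mod_cast this
    have h0 : (0 : ℝ) ≤ (320 / ((i + 1 : ℕ) : ℝ)) ^ 2 * (1 + 4 / 1000000) - 1 := by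
      have : (1 : ℝ) ≤ 320 / ((i + 1 : ℕ) : ℝ) := by
        rw [le_div_iff₀ (by positivity)]; push_cast; linarith
      nlinarith
    have := hK 2 S 16 i _ le_rfl (by norm_num) hi1 h0 (by exact_mod_cast ih)
    refine HU_mono S _ _ _ _ (by norm_num) (le_of_eq ?_) this
    push_cast
    field_simp
    ring

private theorem hU_all (hK : StDK) (S : ℕ) (u20 : HU 2 S 20 (4 / 1000000)) (i : ℕ) (h1 : 16 ≤ i)
    (h2 : i ≤ 319) : HU 2 S ((i : ℝ) / 16) (((1000000000 : ℕ) : ℝ) / 1000000) := by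
  have h := hU_start hK S u20 (320 - i) (by omega)
  have e : 320 - (320 - i) = i := by omega
  rw [e] at h
  refine HU_mono S _ _ _ _ le_rfl ?_ h
  have hi : (16 : ℝ) ≤ i := by exact_mod_cast h1
  have h3 : 320 / (i : ℝ) ≤ 20 := by
    rw [div_le_iff₀ (by linarith)]; linarith
  have h4 : 0 ≤ 320 / (i : ℝ) := by positivity
  have h5 : (320 / (i : ℝ)) ^ 2 ≤ 20 ^ 2 := pow_le_pow_left₀ h4 h3 2
  push_cast
  nlinarith

private theorem hL_all (S i : ℕ) : HL 2 S ((i : ℝ) / 16) (((1000000 : ℕ) : ℝ) / 1000000) := by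
  intro η hη
  refine ⟨0, fun j0 _ U L hA j N hj hN _ => hA.lm _ _ _ _ (hA.lz N j hj hN) ?_⟩
  push_cast
  linarith

theorem hT2 (hI : StDI) (hK : StDK) (hU : StDU) (hL : StDL) : StT2 := by
  intro S
  have u20 := hU20 hI S
  have l20 := hL20 hI S
  have hV := itr_valid hK hU hL S u20 l20 24
    (List.replicate 304 1000000000, List.replicate 288 1000000)
    ⟨List.length_replicate, List.length_replicate,
      V_rep _ _ 16 (hU_all hK S u20) 304 319 (by norm_num) le_rfl,
      V_rep _ _ 32 (fun i _ _ => hL_all S i) 288 319 (by norm_num) le_rfl⟩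
  have hc := chk_true
  obtain ⟨w1, w2, w3, w4⟩ := hV
  generalize itr 24 (List.replicate 304 1000000000, List.replicate 288 1000000) = w at *
  unfold chk at hc
  simp only [Bool.and_eq_true, Nat.ble_eq] at hc
  obtain ⟨c1, c2, c3, c4, c5, c6, c7, c8, c9⟩ := hc
  have gU : ∀ k : ℕ, k < 304 → ∀ (b : ℕ) (s c : ℝ), w.1.getD k 0 ≤ b →
      ((319 - k : ℕ) : ℝ) / 16 ≤ s → (b : ℝ) / 1000000 ≤ c → HU 2 S s c := by
    intro k hk b s c hb hs hc
    have hb' : ((w.1.getD k 0 : ℕ) : ℝ) ≤ b := by exact_mod_cast hb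
    refine HU_mono S _ _ _ _ hs ?_ (V_get _ k _ 319 w3 (by rw [w1]; exact hk))
    refine le_trans ?_ hc
    exact div_le_div_of_nonneg_right hb' (by norm_num)
  refine ⟨?_, gU 175 (by norm_num) _ _ _ c2 (by norm_num) (by norm_num),
    gU 207 (by norm_num) _ _ _ c3 (by norm_num) (by norm_num),
    gU 223 (by norm_num) _ _ _ c4 (by norm_num) (by norm_num),
    gU 231 (by norm_num) _ _ _ c5 (by norm_num) (by norm_num),
    gU 239 (by norm_num) _ _ _ c6 (by norm_num) (by norm_num),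
    gU 247 (by norm_num) _ _ _ c7 (by norm_num) (by norm_num),
    gU 255 (by norm_num) _ _ _ c8 (by norm_num) (by norm_num),
    gU 260 (by norm_num) _ _ _ c9 (by norm_num) (by norm_num)⟩
  have hb' : ((w.2.getD 175 0 : ℕ) : ℝ) ≤ 4000 := by exact_mod_cast c1
  refine HL_mono S _ _ _ _ (by norm_num) ?_ (V_get _ 175 _ 319 w4 (by rw [w2]; norm_num))
  linarith

end Pool.Agent.Helper72.KS
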